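import Mathlib
import Pool.Agent.Y358.MM.Graph

/-!
# Chromatic roots and maxmaxflow: a linear bound

If no two vertices of a finite simple graph are joined by `D + 2` pairwise edge-disjoint paths
(in particular if all vertices but one have degree at most `D + 1`), then all chromatic roots `z`
satisfy `|z| < 4 D`.  Moreover `(c - 1) |z - 1| < 2 c ^ D - c` for all `1 < c < 2`; for `D = 2`,
that is, for maximum degree three, this is `|z - 1| < 3 + 2√2`.

Proof idea.  The chromatic polynomial is, up to a factor `z`, the characteristic polynomial of the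
configuration of the incidence vectors over `ZMod 2`, and every nonzero even vector is detected by a
functional (a cut) that is nonzero on at most `D + 1` of the vectors.  Delete the vectors of such a
cut, one by one, and project along each of them to the hyperplane given by the cut.  Induction on
the dimension shows that the quotient of the polynomials of two configurations that differ by `s`
vectors lies in an explicit disc with centre `ξ ^ s` and radius `A (K ^ s - ξ ^ s)`.
-/

set_option autoImplicit false

namespace Pool.Agent.Results.MP_d38209_co.MaxmaxflowLinear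

open Pool.Agent.Y358.MM Pool.Agent.H157R2.Menger

/-- Let `D ≥ 1`, and let `G` be a finite simple graph in which no two vertices are joined by
`D + 2` pairwise edge-disjoint paths, or in which all vertices but one have degree at most `D + 1`.
Then every root of the chromatic polynomial has modulus less than `4 D`, and satisfies
`(c - 1) |z - 1| < 2 c ^ D - c` for all `1 < c < 2`. -/
theorem result (D : ℕ) (hD : 1 ≤ D) (V : Type) [Fintype V] (G : SimpleGraph V)
    (hG : (∀ u v : V, u ≠ v → ¬ ∃ p : Fin (D + 2) → G.Walk u v,
          (∀ i, (p i).IsPath) ∧ Pairwise (fun i j => List.Disjoint (p i).edges (p j).edges)) ∨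
        (∃ w : V, ∀ v, v ≠ w → (G.neighborSet v).ncard ≤ D + 1))
    (P : Polynomial ℂ)
    (hP : ∀ n : ℕ, P.eval (n : ℂ) = ((Nat.card (G.Coloring (Fin n)) : ℕ) : ℂ))
    (z : ℂ) (hz : P.IsRoot z) :
    ‖z‖ < 4 * D ∧ ∀ c : ℝ, 1 < c → c < 2 → (c - 1) * ‖z - 1‖ < 2 * c ^ D - c := by
  classical
  have hz' : P.eval z = 0 := hz
  rcases isEmpty_or_nonempty V with hV | hV
  · exfalso
    have h1 : P = 1 := by
      apply Polynomial.eq_of_infinite_eval_eq
      apply Set.Infinite.mono (s := Set.range (fun n : ℕ => (n : ℂ)))
      · rintro _ ⟨n, rfl⟩
        show P.eval (n : ℂ) = (1 : Polynomial ℂ).eval (n : ℂ)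
        rw [hP n, Polynomial.eval_one]
        have : Nat.card (G.Coloring (Fin n)) = 1 := by
          rw [Nat.card_eq_one_iff_unique]
          exact ⟨⟨fun a b => by ext x; exact isEmptyElim x⟩,
            ⟨SimpleGraph.Coloring.mk (fun x => isEmptyElim x) (fun {x} => isEmptyElim x)⟩⟩
        rw [this, Nat.cast_one]
      · exact Set.infinite_range_of_injective Nat.cast_injective
    rw [h1, Polynomial.eval_one] at hz'
    exact one_ne_zero hz'
  · have hcut : ∀ u v : V, u ≠ v → ∃ S : Finset V, u ∈ S ∧ v ∉ S ∧ (cut G S).card ≤ D + 1 := by
      rcases hG with hG | ⟨w, hw⟩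
      · exact cuts_of_paths G (D + 1) hG
      · refine cuts_of_degrees G (D + 1) w fun v hv => ?_
        have h1 := hw v hv
        rwa [Set.ncard_eq_toFinset_card', ← SimpleGraph.neighborFinset_def,
          SimpleGraph.card_neighborFinset_eq_degree] at h1
    have hD0 : (1 : ℝ) ≤ D := by exact_mod_cast hD
    rw [poly_eq G P hP z] at hz'
    refine ⟨?_, fun c hc hc2 => ?_⟩
    · by_contra hcon
      push Not at hcon
      exact graph_four G D hD hcut z hcon hz'
    · by_contra hcon
      push Not at hcon
      rcases eq_or_ne z 0 with h0 | h0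
      · rw [h0] at hcon
        have h1 : c ^ 1 ≤ c ^ D := pow_le_pow_right₀ hc.le hD
        have h2 : ‖(0 : ℂ) - 1‖ = 1 := by simp
        rw [h2] at hcon
        rw [pow_one] at h1
        linarith
      · exact graph_c G D hD hcut z h0 c hc hc2 hcon hz'

end Pool.Agent.Results.MP_d38209_co.MaxmaxflowLinear
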